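import Pool.Agent.W292.RG.Stm

/-!
# RG-TB1: Tutte-Berge from Tutte's theorem (helper790, for helper292)
-/

set_option autoImplicit false

namespace Pool.Agent.W790.RG

open SimpleGraph Pool.Agent.Helper879.ECD

variable {V : Type}

/-- the graph with `t` additional universal vertices -/
def EG (H : SimpleGraph V) (t : ℕ) : SimpleGraph (V ⊕ Fin t) where
  Adj a b := a ≠ b ∧ ∀ x y, a = Sum.inl x → b = Sum.inl y → H.Adj x y
  symm := ⟨fun _ _ h => ⟨h.1.symm, fun x y hx hy => (h.2 y x hy hx).symm⟩⟩
  loopless := ⟨fun _ h => h.1 rfl⟩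

theorem EG_ll {H : SimpleGraph V} {t : ℕ} {x y : V} :
    (EG H t).Adj (Sum.inl x) (Sum.inl y) ↔ H.Adj x y := by
  constructor
  · intro h
    exact h.2 x y rfl rfl
  · intro h
    refine ⟨fun e => h.ne (Sum.inl_injective e), fun x' y' hx hy => ?_⟩
    rw [← Sum.inl_injective hx, ← Sum.inl_injective hy]
    exact h

theorem EG_r {H : SimpleGraph V} {t : ℕ} {i : Fin t} {b : V ⊕ Fin t} (h : Sum.inr i ≠ b) :
    (EG H t).Adj (Sum.inr i) b := by
  refine ⟨h, fun x y hx _ => ?_⟩
  cases hx

variable {H : SimpleGraph V} {t : ℕ}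

/-- reachability when all the additional vertices are removed -/
theorem reach_iff {U : Set (V ⊕ Fin t)} (hU : ∀ i, Sum.inr i ∈ U) (x y : V) :
    (off (EG H t) U).Reachable (Sum.inl x) (Sum.inl y) ↔
      (off H {x | Sum.inl x ∈ U}).Reachable x y := by
  constructor
  · rintro ⟨p⟩
    have key : ∀ a b : V ⊕ Fin t, (off (EG H t) U).Walk a b → ∀ x y, a = Sum.inl x →
        b = Sum.inl y → (off H {x | Sum.inl x ∈ U}).Reachable x y := by
      intro a b p
      induction p with
      | nil =>
        intro x y hx hy
        rw [hx] at hy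
        rw [Sum.inl_injective hy]
      | @cons u v w h p ih =>
        intro x y hx hy
        obtain ⟨h1, h2, h3⟩ := h
        cases v with
        | inr i => exact absurd (hU i) h3
        | inl v =>
          subst hx
          refine Reachable.trans (Adj.reachable ?_) (ih v y rfl hy)
          exact ⟨EG_ll.1 h1, h2, h3⟩
    exact key _ _ p x y rfl rfl
  · intro h
    let f : off H {x | Sum.inl x ∈ U} →g off (EG H t) U :=
      { toFun := Sum.inl
        map_rel' := fun {a b} h => ⟨EG_ll.2 h.1, h.2.1, h.2.2⟩ }
    exact h.map f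

theorem no_violator [Fintype V] (hev : Even (Fintype.card V + t))
    (hH : ∀ A : Set V, {Z | OddComp H A Z}.ncard ≤ A.ncard + t) (U : Set (V ⊕ Fin t)) :
    {Z | OddComp (EG H t) U Z}.ncard ≤ U.ncard := by
  by_contra hlt
  rw [not_le] at hlt
  by_cases hU : ∀ i, Sum.inr i ∈ U
  · -- all the additional vertices are removed
    set A : Set V := {x | Sum.inl x ∈ U} with hA
    have hUeq : U = Sum.inl '' A ∪ Set.range Sum.inr := by
      ext a
      cases a with
      | inl x =>
        simp [hA]
      | inr i =>
        simp [hU i]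
    have hcard : U.ncard = A.ncard + t := by
      rw [hUeq, Set.ncard_union_eq ?_ (Set.toFinite _) (Set.toFinite _),
        Set.ncard_image_of_injective _ Sum.inl_injective, ← Set.image_univ,
        Set.ncard_image_of_injective _ Sum.inr_injective, Set.ncard_univ, Nat.card_fin]
      rw [Set.disjoint_left]
      rintro _ ⟨x, _, rfl⟩ ⟨i, hi⟩
      cases hi
    have hrange : ∀ Z, OddComp (EG H t) U Z → Z = Sum.inl '' (Sum.inl ⁻¹' Z) := by
      intro Z hZ
      ext a
      constructor
      · intro ha
        cases a with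
        | inl x => exact ⟨x, ha, rfl⟩
        | inr i => exact absurd (hU i) (hZ.notMem ha)
      · rintro ⟨x, hx, rfl⟩
        exact hx
    have hle : {Z | OddComp (EG H t) U Z}.ncard ≤ {Z | OddComp H A Z}.ncard := by
      refine Set.ncard_le_ncard_of_injOn (fun Z => Sum.inl ⁻¹' Z) ?_ ?_ (Set.toFinite _)
      · intro Z hZ
        have h1 := hrange Z hZ
        obtain ⟨⟨a, ha, hZa⟩, hodd⟩ := hZ
        refine ⟨?_, ?_⟩
        · cases a with
          | inr i => exact absurd (hU i) ha
          | inl x =>
            refine ⟨x, ha, ?_⟩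
            ext y
            show Sum.inl y ∈ Z ↔ _
            rw [hZa]
            exact reach_iff hU x y
        · rw [h1, Set.ncard_image_of_injective _ Sum.inl_injective] at hodd
          exact hodd
      · intro Z hZ Z' hZ' h
        rw [hrange Z hZ, hrange Z' hZ']
        exact congrArg (fun S => Sum.inl '' S) h
    have := hH A
    omega
  · push Not at hU
    obtain ⟨i, hi⟩ := hU
    have hall : ∀ y, y ∉ U → (off (EG H t) U).Reachable (Sum.inr i) y := by
      intro y hy
      by_cases h : Sum.inr i = y
      · rw [h]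
      · exact Adj.reachable ⟨EG_r h, hi, hy⟩
    have hZ : ∀ Z, OddComp (EG H t) U Z → Z = Uᶜ := by
      rintro Z ⟨⟨x, hx, rfl⟩, _⟩
      ext y
      constructor
      · intro hy
        exact off_reach_notMem hx hy
      · intro hy
        exact (hall x hx).symm.trans (hall y hy)
    have hsub : {Z | OddComp (EG H t) U Z} ⊆ {Uᶜ} := fun Z h => hZ Z h
    have h1 := Set.ncard_le_ncard hsub (Set.toFinite _)
    rw [Set.ncard_singleton] at h1
    have h2 : U.ncard = 0 := by omega
    have h3 : U = ∅ := (Set.ncard_eq_zero (Set.toFinite _)).1 h2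
    have h4 : 0 < {Z | OddComp (EG H t) U Z}.ncard := by omega
    obtain ⟨Z, hZ1⟩ := (Set.ncard_pos (Set.toFinite _)).1 h4
    have h5 := hZ Z hZ1
    have h6 := hZ1.2
    rw [h5, h3, Set.compl_empty, Set.ncard_univ, Nat.card_eq_fintype_card, Fintype.card_sum,
      Fintype.card_fin] at h6
    exact (Nat.not_odd_iff_even.2 hev) h6

theorem TB1 : Pool.Agent.W292.RG.St_TB1 := by
  intro V _ _ H t hev hH
  classical
  obtain ⟨M, hM⟩ : ∃ M : Subgraph (EG H t), M.IsPerfectMatching := by
    rw [tutte]
    intro U hU
    unfold IsTutteViolator at hU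
    rw [ncard_oddComp] at hU
    have := no_violator hev hH U
    omega
  have hM1 : ∀ v, ∃! w, M.Adj v w := fun v => hM.1 (hM.2 v)
  choose p hp hpu using hM1
  have hpp : ∀ v w, p v = w → p w = v := by
    intro v w h
    exact (hpu w v (by
      show M.Adj w v
      rw [← h]
      exact (hp v).symm)).symm
  let g : V → V := fun x => Sum.elim (fun y => y) (fun _ => x) (p (Sum.inl x))
  have hgl : ∀ x y, p (Sum.inl x) = Sum.inl y → g x = y := by
    intro x y h
    show Sum.elim (fun y => y) (fun _ => x) (p (Sum.inl x)) = y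
    rw [h]
    rfl
  have hgr : ∀ x i, p (Sum.inl x) = Sum.inr i → g x = x := by
    intro x i h
    show Sum.elim (fun y => y) (fun _ => x) (p (Sum.inl x)) = x
    rw [h]
    rfl
  have hadj : ∀ x y, p (Sum.inl x) = Sum.inl y → H.Adj x y := by
    intro x y h
    have h1 := (hp (Sum.inl x)).adj_sub
    rw [h] at h1
    exact EG_ll.1 h1
  refine ⟨g, ?_, ?_, ?_⟩
  · intro x
    rcases hx : p (Sum.inl x) with y | i
    · rw [hgl x y hx, hgl y x (hpp _ _ hx)]
    · rw [hgr x i hx, hgr x i hx]
  · intro x hgx
    rcases hx : p (Sum.inl x) with y | i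
    · rw [hgl x y hx]
      exact hadj x y hx
    · exact absurd (hgr x i hx) hgx
  · have hsub : (Finset.univ.filter (fun x => g x = x)).image (fun x => p (Sum.inl x)) ⊆
        (Finset.univ : Finset (Fin t)).image (fun i => (Sum.inr i : V ⊕ Fin t)) := by
      intro a ha
      rw [Finset.mem_image] at ha
      obtain ⟨x, hx, rfl⟩ := ha
      rw [Finset.mem_filter] at hx
      rcases hx2 : p (Sum.inl x) with y | i
      · exfalso
        have h1 := hgl x y hx2
        rw [hx.2] at h1
        have h2 := hadj x y hx2
        rw [← h1] at h2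
        exact h2.ne rfl
      · rw [Finset.mem_image]
        exact ⟨i, Finset.mem_univ _, rfl⟩
    have h1 := Finset.card_le_card hsub
    rw [Finset.card_image_of_injective _ (by
      intro x y h
      have h2 : p (Sum.inl x) = p (Sum.inl y) := h
      have h3 := hpp _ _ h2
      rw [hpp _ _ rfl] at h3
      exact (Sum.inl_injective h3).symm), Finset.card_image_of_injective _ Sum.inr_injective,
      Finset.card_univ, Fintype.card_fin] at h1
    convert h1

end Pool.Agent.W790.RG
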